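import Pool.Graph.R_pool_sql_team_seeded_5cf16337.K3h57.Refl

/-!
# An entropy certificate for the four heights `0, 1/3, 2/3, 1`

Two configurations: `t1` is a pair of lines meeting at height `0`, and `t2` is a pair of copies of
`t1` glued along the chord through the points of height `1` of the two lines.
-/

set_option autoImplicit false
set_option maxRecDepth 100000
set_option linter.all false

namespace Pool.Agent.Helper16.AK.CertK4
open Pool.Agent.K3h57 Pool.Agent.K3h57.Tm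

/-- Two lines meeting at height `0`. -/
abbrev t1 : Tm := .glue .line .line [[1]] [[1]]
theorem ok_t1 (B : Base) : Tm.Ok B t1 :=
  ok_rule ((fun _ => ok_line) B) [] .line _ _ (by decide +kernel)
/-- Two copies of `t1` glued along a chord. -/
abbrev t2 : Tm := .glue t1 t1 [[1, 1], [0, 0, 1, 1]] [[1, 1], [0, 0, 1, 1]]
theorem ok_t2 (B : Base) : Tm.Ok B t2 :=
  ok_rule (ok_t1 B) [] t1 _ _ (by decide +kernel)

/-- The entropy of a line. -/
noncomputable def vl (B : Base) : ℝ := SS B .line [[1], [0, 1]]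
/-- Heights `0` and `1`. -/
noncomputable def va (B : Base) : ℝ := SS B .line [[1]]
/-- Heights `1/3` and `2/3`. -/
noncomputable def vb (B : Base) : ℝ := SS B .line [[3, 1]]

theorem a1 (B : Base) : SS B t1 [[1, 1]] = va B :=
  ss_ref ok_t1 [.fst] .line _ _ (by decide +kernel) B
theorem a2 (B : Base) : SS B t1 [[0, 0, 1, 1]] = va B :=
  ss_ref ok_t1 [.snd] .line _ _ (by decide +kernel) B
theorem b0 (B : Base) : SS B t1 [[3, 1]] = vb B :=
  ss_mor ok_t1 [.fst] .line _ _ (by decide +kernel) B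
theorem b0' (B : Base) : SS B t1 [[0, 0, 3, 1]] = vb B :=
  ss_mor ok_t1 [.snd] .line _ _ (by decide +kernel) B
theorem b1 (B : Base) : SS B t1 [[3, 2]] = vb B :=
  ss_ref ok_t1 [.fst] .line _ _ (by decide +kernel) B
theorem b2 (B : Base) : SS B t1 [[0, 0, 3, 2]] = vb B :=
  ss_ref ok_t1 [.snd] .line _ _ (by decide +kernel) B

/-- The entropy of `t1`. -/
noncomputable def vv (B : Base) : ℝ := SS B t1 [[1], [0, 1], [0, 0, 0, 1]]

theorem q1 (B : Base) : vl B + vl B ≤ vv B + va B := by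
  have h := ss_ind (S := .line) (R := .line) ok_t1 [[1], [0, 1]] [[1], [0, 1]]
    [[1], [0, 1], [0, 0, 0, 1]] (by decide +kernel) (by decide +kernel) (by decide +kernel)
    (by decide +kernel) B
  exact h

/-- The chord with heights `1, 1`. -/
noncomputable def c11 (B : Base) : ℝ := SS B t1 [[1, 1], [0, 0, 1, 1]]
/-- The chord with heights `2/3, 2/3`. -/
noncomputable def c22 (B : Base) : ℝ := SS B t1 [[3, 2], [0, 0, 3, 2]]
/-- The chord with heights `1/3, 1`. -/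
noncomputable def c13 (B : Base) : ℝ := SS B t1 [[3, 1], [0, 0, 1, 1]]
/-- The chord with heights `2/3, 1`. -/
noncomputable def c23 (B : Base) : ℝ := SS B t1 [[3, 2], [0, 0, 1, 1]]

theorem q2 (B : Base) : c11 B ≤ va B + va B := by
  have h := ss_add ok_t1 [[1, 1]] [[0, 0, 1, 1]] [[1, 1], [0, 0, 1, 1]] (by decide +kernel) B
  have h1 := a1 B
  have h2 := a2 B
  unfold c11
  linarith

theorem q3 (B : Base) : c22 B ≤ vb B + vb B := by
  have h := ss_add ok_t1 [[3, 2]] [[0, 0, 3, 2]] [[3, 2], [0, 0, 3, 2]] (by decide +kernel) B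
  have h1 := b1 B
  have h2 := b2 B
  unfold c22
  linarith

theorem q4 (B : Base) : c13 B ≤ vb B + va B := by
  have h := ss_add ok_t1 [[3, 1]] [[0, 0, 1, 1]] [[3, 1], [0, 0, 1, 1]] (by decide +kernel) B
  have h1 := b0 B
  have h2 := a2 B
  unfold c13
  linarith

theorem q5 (B : Base) : c23 B ≤ vb B + va B := by
  have h := ss_add ok_t1 [[3, 2]] [[0, 0, 1, 1]] [[3, 2], [0, 0, 1, 1]] (by decide +kernel) B
  have h1 := b1 B
  have h2 := a2 B
  unfold c23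
  linarith

/-- A point of the plane of `t1`. -/
noncomputable def p1 (B : Base) : ℝ := SS B t1 [[6, 1, 0, 3]]
/-- A point of the plane of `t1`. -/
noncomputable def p2 (B : Base) : ℝ := SS B t1 [[9, 4, 0, 3]]

theorem q6 (B : Base) : vv B + p1 B ≤ c13 B + c22 B := by
  have h := ss_sub ok_t1 [[3, 1], [0, 0, 1, 1]] [[3, 2], [0, 0, 3, 2]]
    [[1], [0, 1], [0, 0, 0, 1]] [[6, 1, 0, 3]]
    (by decide +kernel) (by decide +kernel) (by decide +kernel) B
  exact h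

theorem q7 (B : Base) : vv B ≤ vb B + p2 B := by
  have h := ss_add ok_t1 [[0, 0, 3, 1]] [[9, 4, 0, 3]] [[1], [0, 1], [0, 0, 0, 1]]
    (by decide +kernel) B
  have := b0' B
  unfold vv p2
  linarith

/-- The entropy of `t2`. -/
noncomputable def vq (B : Base) : ℝ := SS B t2 [[1], [0, 1], [0, 0, 0, 1], [0, 0, 0, 0, 1]]

theorem q8 (B : Base) : vv B + vv B ≤ vq B + c11 B := by
  have h := ss_ind (S := t1) (R := t1) ok_t2 [[1], [0, 1], [0, 0, 0, 1]]
    [[1], [0, 1], [0, 0, 0, 1]] [[1], [0, 1], [0, 0, 0, 1], [0, 0, 0, 0, 1]]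
    (by decide +kernel) (by decide +kernel) (by decide +kernel) (by decide +kernel) B
  exact h

/-- Opposite points of height `1/3`. -/
noncomputable def f1 (B : Base) : ℝ := SS B t2 [[3, 1], [0, 0, 0, 0, 0, 0, 3, 1]]
/-- Opposite points of height `2/3`. -/
noncomputable def f2 (B : Base) : ℝ := SS B t2 [[3, 2], [0, 0, 0, 0, 0, 0, 3, 2]]

theorem q9 (B : Base) : f1 B ≤ vb B + vb B := by
  have h := ss_add ok_t2 [[3, 1]] [[0, 0, 0, 0, 0, 0, 3, 1]] [[3, 1], [0, 0, 0, 0, 0, 0, 3, 1]]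
    (by decide +kernel) B
  have h1 : SS B t2 [[3, 1]] = vb B :=
    ss_mor ok_t2 [.fst, .fst] .line _ _ (by decide +kernel) B
  have h2 : SS B t2 [[0, 0, 0, 0, 0, 0, 3, 1]] = vb B :=
    ss_mor ok_t2 [.snd, .snd] .line _ _ (by decide +kernel) B
  unfold f1
  linarith

theorem q10 (B : Base) : f2 B ≤ vb B + vb B := by
  have h := ss_add ok_t2 [[3, 2]] [[0, 0, 0, 0, 0, 0, 3, 2]] [[3, 2], [0, 0, 0, 0, 0, 0, 3, 2]]
    (by decide +kernel) B
  have h1 : SS B t2 [[3, 2]] = vb B :=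
    ss_ref ok_t2 [.fst, .fst] .line _ _ (by decide +kernel) B
  have h2 : SS B t2 [[0, 0, 0, 0, 0, 0, 3, 2]] = vb B :=
    ss_ref ok_t2 [.snd, .snd] .line _ _ (by decide +kernel) B
  unfold f2
  linarith

/-- The flat of the points of height `1/3`. -/
noncomputable def g1 (B : Base) : ℝ :=
  SS B t2 [[3, 1], [0, 0, 3, 1], [0, 0, 0, 0, 3, 1], [0, 0, 0, 0, 0, 0, 3, 1]]
/-- The flat of the points of height `2/3`. -/
noncomputable def g2 (B : Base) : ℝ :=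
  SS B t2 [[3, 2], [0, 0, 3, 2], [0, 0, 0, 0, 3, 2], [0, 0, 0, 0, 0, 0, 3, 2]]
/-- A point of `t2`. -/
noncomputable def r1 (B : Base) : ℝ := SS B t2 [[4, 1, 0, 1, 2]]
/-- A point of `t2`. -/
noncomputable def r4 (B : Base) : ℝ := SS B t2 [[4, 1, 0, 1, -1]]
/-- A point of `t2`. -/
noncomputable def r5 (B : Base) : ℝ := SS B t2 [[5, 2, 0, 2, 1]]

theorem q11 (B : Base) : g1 B + r1 B ≤ f1 B + f1 B := by
  have h := ss_sub ok_t2 [[3, 1], [0, 0, 0, 0, 0, 0, 3, 1]] [[0, 0, 3, 1], [0, 0, 0, 0, 3, 1]]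
    [[3, 1], [0, 0, 3, 1], [0, 0, 0, 0, 3, 1], [0, 0, 0, 0, 0, 0, 3, 1]] [[4, 1, 0, 1, 2]]
    (by decide +kernel) (by decide +kernel) (by decide +kernel) B
  have h1 : SS B t2 [[0, 0, 3, 1], [0, 0, 0, 0, 3, 1]] = f1 B :=
    ss_mor ok_t2 [.swap] t2 _ _ (by decide +kernel) B
  unfold g1 r1
  unfold f1 at h1 ⊢
  linarith

theorem q12 (B : Base) : g2 B + r5 B ≤ f2 B + f2 B := by
  have h := ss_sub ok_t2 [[3, 2], [0, 0, 0, 0, 0, 0, 3, 2]] [[0, 0, 3, 2], [0, 0, 0, 0, 3, 2]]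
    [[3, 2], [0, 0, 3, 2], [0, 0, 0, 0, 3, 2], [0, 0, 0, 0, 0, 0, 3, 2]] [[5, 2, 0, 2, 1]]
    (by decide +kernel) (by decide +kernel) (by decide +kernel) B
  have h1 : SS B t2 [[0, 0, 3, 2], [0, 0, 0, 0, 3, 2]] = f2 B :=
    ss_mor ok_t2 [.swap] t2 _ _ (by decide +kernel) B
  unfold g2 r5
  unfold f2 at h1 ⊢
  linarith

/-- A point of height `1/3` and an opposite line. -/
noncomputable def w1 (B : Base) : ℝ :=
  SS B t2 [[3, 1], [0, 0, 0, 0, 0, 0, 1], [0, 0, 0, 0, 0, 0, 0, 1]]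
/-- A point of height `2/3` and an opposite line. -/
noncomputable def w2 (B : Base) : ℝ :=
  SS B t2 [[3, 2], [0, 0, 0, 0, 0, 0, 1], [0, 0, 0, 0, 0, 0, 0, 1]]

theorem q13 (B : Base) : w1 B ≤ vb B + r4 B := by
  have h := ss_add ok_t2 [[3, 1]] [[4, 1, 0, 1, -1]]
    [[3, 1], [0, 0, 0, 0, 0, 0, 1], [0, 0, 0, 0, 0, 0, 0, 1]] (by decide +kernel) B
  have h1 : SS B t2 [[3, 1]] = vb B :=
    ss_mor ok_t2 [.fst, .fst] .line _ _ (by decide +kernel) B
  unfold w1 r4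
  linarith

theorem q14 (B : Base) : w1 B ≤ r1 B + p1 B := by
  have h := ss_add ok_t2 [[4, 1, 0, 1, 2]] [[6, 1, 0, 3]]
    [[3, 1], [0, 0, 0, 0, 0, 0, 1], [0, 0, 0, 0, 0, 0, 0, 1]] (by decide +kernel) B
  have h1 : SS B t2 [[6, 1, 0, 3]] = p1 B :=
    ss_mor ok_t2 [.fst] t1 _ _ (by decide +kernel) B
  unfold w1 r1
  linarith

/-- A two dimensional flat of `t2`. -/
noncomputable def vk (B : Base) : ℝ := SS B t2 [[0, 0, 0, 0, 1], [4, 1, 0, 1]]

theorem q15 (B : Base) : vq B + vk B ≤ w1 B + w1 B := by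
  have h := ss_sub ok_t2 [[3, 1], [0, 0, 0, 0, 0, 0, 1], [0, 0, 0, 0, 0, 0, 0, 1]]
    [[0, 0, 3, 1], [0, 0, 0, 0, 1], [0, 0, 0, 0, 0, 1]]
    [[1], [0, 1], [0, 0, 0, 1], [0, 0, 0, 0, 1]] [[0, 0, 0, 0, 1], [4, 1, 0, 1]]
    (by decide +kernel) (by decide +kernel) (by decide +kernel) B
  have h1 : SS B t2 [[0, 0, 3, 1], [0, 0, 0, 0, 1], [0, 0, 0, 0, 0, 1]] = w1 B :=
    ss_mor ok_t2 [.L (.swap) [[0, 0, 1, 1], [1, 1]], .R (.swap) [[0, 0, 1, 1], [1, 1]],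
      .reb [[1, 1], [0, 0, 1, 1]] [[1, 1], [0, 0, 1, 1]]] t2 _ _ (by decide +kernel) B
  unfold vq vk
  unfold w1 at h1 ⊢
  linarith

theorem q16 (B : Base) : vq B + r4 B ≤ g2 B + vk B := by
  have h := ss_sub ok_t2
    [[3, 2], [0, 0, 3, 2], [0, 0, 0, 0, 3, 2], [0, 0, 0, 0, 0, 0, 3, 2]]
    [[0, 0, 0, 0, 1], [4, 1, 0, 1]]
    [[1], [0, 1], [0, 0, 0, 1], [0, 0, 0, 0, 1]] [[4, 1, 0, 1, -1]]
    (by decide +kernel) (by decide +kernel) (by decide +kernel) B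
  exact h

/-- A two dimensional flat of `t2`. -/
noncomputable def vm (B : Base) : ℝ := SS B t2 [[0, 0, 3, 1], [0, 6, 0, -5, 3]]

theorem q17 (B : Base) : vq B ≤ vb B + vm B := by
  have h := ss_add ok_t2 [[3, 2]] [[0, 0, 3, 1], [0, 6, 0, -5, 3]]
    [[1], [0, 1], [0, 0, 0, 1], [0, 0, 0, 0, 1]] (by decide +kernel) B
  have h1 : SS B t2 [[3, 2]] = vb B :=
    ss_ref ok_t2 [.fst, .fst] .line _ _ (by decide +kernel) B
  unfold vq vm
  linarith

theorem q18 (B : Base) : vq B + vm B ≤ w2 B + g1 B := by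
  have h := ss_sub ok_t2 [[3, 2], [0, 0, 0, 0, 0, 0, 1], [0, 0, 0, 0, 0, 0, 0, 1]]
    [[3, 1], [0, 0, 3, 1], [0, 0, 0, 0, 3, 1], [0, 0, 0, 0, 0, 0, 3, 1]]
    [[1], [0, 1], [0, 0, 0, 1], [0, 0, 0, 0, 1]] [[0, 0, 0, 0, 0, 0, 3, 1], [0, 2, 0, -3, -3]]
    (by decide +kernel) (by decide +kernel) (by decide +kernel) B
  have h1 : SS B t2 [[0, 0, 0, 0, 0, 0, 3, 1], [0, 2, 0, -3, -3]] = vm B :=
    ss_mor ok_t2 [.swap] t2 _ _ (by decide +kernel) B
  unfold vq w2 g1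
  linarith

/-- A two dimensional flat of `t2`. -/
noncomputable def vn (B : Base) : ℝ := SS B t2 [[3, 1], [5, 2, 0, 2, 1]]

theorem q19 (B : Base) : w2 B + p2 B ≤ c23 B + vn B := by
  have h := ss_sub ok_t2 [[3, 2], [0, 0, 1, 1]] [[0, 0, 0, 0, 0, 0, 3, 1], [0, 2, 0, -3, -9]]
    [[3, 2], [0, 0, 0, 0, 0, 0, 1], [0, 0, 0, 0, 0, 0, 0, 1]] [[9, 4, 0, 3]]
    (by decide +kernel) (by decide +kernel) (by decide +kernel) B
  have h1 : SS B t2 [[3, 2], [0, 0, 1, 1]] = c23 B :=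
    ss_mor ok_t2 [.fst] t1 _ _ (by decide +kernel) B
  have h2 : SS B t2 [[9, 4, 0, 3]] = p2 B :=
    ss_mor ok_t2 [.fst] t1 _ _ (by decide +kernel) B
  have h3 : SS B t2 [[0, 0, 0, 0, 0, 0, 3, 1], [0, 2, 0, -3, -9]] = vn B :=
    ss_mor ok_t2 [.swap, .L (.swap) [[0, 0, 1, 1], [1, 1]], .R (.swap) [[0, 0, 1, 1], [1, 1]],
      .reb [[1, 1], [0, 0, 1, 1]] [[1, 1], [0, 0, 1, 1]]] t2 _ _ (by decide +kernel) B
  unfold w2
  linarith

theorem q20 (B : Base) : vn B ≤ vb B + r5 B := by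
  have h := ss_add ok_t2 [[3, 1]] [[5, 2, 0, 2, 1]] [[3, 1], [5, 2, 0, 2, 1]]
    (by decide +kernel) B
  have h1 : SS B t2 [[3, 1]] = vb B :=
    ss_mor ok_t2 [.fst, .fst] .line _ _ (by decide +kernel) B
  unfold vn r5
  linarith

/-- The certificate: `5 h(line) ≤ 5 h(0) + 4 h(1/3)`, summed over the two orientations. -/
theorem final (B : Base) : 5 * vl B ≤ 5 * va B + 4 * vb B := by
  have e1 := q1 B
  have e2 := q2 B
  have e3 := q3 B
  have e4 := q4 B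
  have e5 := q5 B
  have e6 := q6 B
  have e7 := q7 B
  have e8 := q8 B
  have e9 := q9 B
  have e10 := q10 B
  have e11 := q11 B
  have e12 := q12 B
  have e13 := q13 B
  have e14 := q14 B
  have e15 := q15 B
  have e16 := q16 B
  have e17 := q17 B
  have e18 := q18 B
  have e19 := q19 B
  have e20 := q20 B
  linarith

end Pool.Agent.Helper16.AK.CertK4
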