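import Pool.Graph.R_pool_sql_team_seeded_5cf16337.K3h57.Refl

/-!
# An entropy certificate for the five heights `0, 1/3, 1/2, 2/3, 1`

Two configurations: `t1` is a pair of lines meeting at height `0`, and `t2` is a pair of copies of
`t1` glued along the chord through the points of height `1/3` of the first line and of height `1/2`
of the second line.
-/

set_option autoImplicit false
set_option maxRecDepth 100000
set_option linter.all false

namespace Pool.Agent.Helper16.AK.CertT5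
open Pool.Agent.K3h57 Pool.Agent.K3h57.Tm

/-- Two lines meeting at height `0`. -/
abbrev t1 : Tm := .glue .line .line [[1]] [[1]]
theorem ok_t1 (B : Base) : Tm.Ok B t1 :=
  ok_rule ((fun _ => ok_line) B) [] .line _ _ (by decide +kernel)
/-- Two copies of `t1` glued along a chord. -/
abbrev t2 : Tm := .glue t1 t1 [[3, 1], [0, 0, 2, 1]] [[3, 1], [0, 0, 2, 1]]
theorem ok_t2 (B : Base) : Tm.Ok B t2 :=
  ok_rule (ok_t1 B) [] t1 _ _ (by decide +kernel)

/-- The entropy of a line. -/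
noncomputable def vl (B : Base) : ℝ := SS B .line [[1], [0, 1]]
/-- Heights `0` and `1`. -/
noncomputable def va (B : Base) : ℝ := SS B .line [[1]]
/-- Heights `1/3` and `2/3`. -/
noncomputable def vb (B : Base) : ℝ := SS B .line [[3, 1]]
/-- Height `1/2`. -/
noncomputable def vc (B : Base) : ℝ := SS B .line [[2, 1]]

theorem a0 (B : Base) : SS B t1 [[1]] = va B :=
  ss_mor ok_t1 [.fst] .line _ _ (by decide +kernel) B
theorem a1 (B : Base) : SS B t1 [[1, 1]] = va B :=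
  ss_ref ok_t1 [.fst] .line _ _ (by decide +kernel) B
theorem a2 (B : Base) : SS B t1 [[0, 0, 1, 1]] = va B :=
  ss_ref ok_t1 [.snd] .line _ _ (by decide +kernel) B
theorem b0 (B : Base) : SS B t1 [[3, 1]] = vb B :=
  ss_mor ok_t1 [.fst] .line _ _ (by decide +kernel) B
theorem b1 (B : Base) : SS B t1 [[3, 2]] = vb B :=
  ss_ref ok_t1 [.fst] .line _ _ (by decide +kernel) B
theorem b2 (B : Base) : SS B t1 [[0, 0, 3, 2]] = vb B :=
  ss_ref ok_t1 [.snd] .line _ _ (by decide +kernel) B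
theorem c0 (B : Base) : SS B t1 [[2, 1]] = vc B :=
  ss_mor ok_t1 [.fst] .line _ _ (by decide +kernel) B
theorem c1 (B : Base) : SS B t1 [[0, 0, 2, 1]] = vc B :=
  ss_mor ok_t1 [.snd] .line _ _ (by decide +kernel) B

/-- The entropy of `t1`. -/
noncomputable def vv (B : Base) : ℝ := SS B t1 [[1], [0, 1], [0, 0, 0, 1]]

theorem q1 (B : Base) : vl B + vl B ≤ vv B + va B := by
  have h := ss_ind (S := .line) (R := .line) ok_t1 [[1], [0, 1]] [[1], [0, 1]]
    [[1], [0, 1], [0, 0, 0, 1]] (by decide +kernel) (by decide +kernel) (by decide +kernel)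
    (by decide +kernel) B
  exact h

/-- A point of the plane of `t1`. -/
noncomputable def p1 (B : Base) : ℝ := SS B t1 [[3, 1, 0, 1]]
/-- A point of the plane of `t1`. -/
noncomputable def p2 (B : Base) : ℝ := SS B t1 [[1, 1, 0, -1]]

theorem q2 (B : Base) : vv B ≤ vb B + p1 B := by
  have h := ss_add ok_t1 [[3, 1]] [[3, 1, 0, 1]] [[1], [0, 1], [0, 0, 0, 1]]
    (by decide +kernel) B
  have := b0 B
  unfold vv p1
  linarith

theorem q3 (B : Base) : vv B ≤ va B + p2 B := by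
  have h := ss_add ok_t1 [[1, 1]] [[1, 1, 0, -1]] [[1], [0, 1], [0, 0, 0, 1]]
    (by decide +kernel) B
  have := a1 B
  unfold vv p2
  linarith

/-- A chord: heights `1/2` and `1`. -/
noncomputable def ve (B : Base) : ℝ := SS B t1 [[2, 1], [0, 0, 1, 1]]
/-- The chord of `t2`: heights `1/3` and `1/2`. -/
noncomputable def vch (B : Base) : ℝ := SS B t1 [[3, 1], [0, 0, 2, 1]]
/-- A chord: heights `2/3` and `2/3`. -/
noncomputable def vg (B : Base) : ℝ := SS B t1 [[3, 2], [0, 0, 3, 2]]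

theorem q4 (B : Base) : ve B ≤ vc B + va B := by
  have h := ss_add ok_t1 [[2, 1]] [[0, 0, 1, 1]] [[2, 1], [0, 0, 1, 1]] (by decide +kernel) B
  have h1 := c0 B
  have h2 := a2 B
  unfold ve
  linarith

theorem q5 (B : Base) : vch B ≤ vb B + vc B := by
  have h := ss_add ok_t1 [[3, 1]] [[0, 0, 2, 1]] [[3, 1], [0, 0, 2, 1]] (by decide +kernel) B
  have h1 := b0 B
  have h2 := c1 B
  unfold vch
  linarith

theorem q6 (B : Base) : vg B ≤ vb B + vb B := by
  have h := ss_add ok_t1 [[3, 2]] [[0, 0, 3, 2]] [[3, 2], [0, 0, 3, 2]] (by decide +kernel) B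
  have h1 := b1 B
  have h2 := b2 B
  unfold vg
  linarith

/-- The entropy of `t2`. -/
noncomputable def vq (B : Base) : ℝ := SS B t2 [[1], [0, 1], [0, 0, 0, 1], [0, 0, 0, 0, 1]]

theorem q7 (B : Base) : vv B + vv B ≤ vq B + vch B := by
  have h := ss_ind (S := t1) (R := t1) ok_t2 [[1], [0, 1], [0, 0, 0, 1]]
    [[1], [0, 1], [0, 0, 0, 1]] [[1], [0, 1], [0, 0, 0, 1], [0, 0, 0, 0, 1]]
    (by decide +kernel) (by decide +kernel) (by decide +kernel) (by decide +kernel) B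
  exact h

/-- The three dimensional flat spanned by two corresponding chords. -/
noncomputable def vf (B : Base) : ℝ :=
  SS B t2 [[2, 1], [0, 0, 1, 1], [0, 0, 0, 0, 2, 1], [0, 0, 0, 0, 0, 0, 1, 1]]

theorem q8 (B : Base) : vf B + p2 B ≤ ve B + ve B := by
  have h := ss_sub ok_t2 [[2, 1], [0, 0, 1, 1]] [[0, 0, 0, 0, 2, 1], [0, 0, 0, 0, 0, 0, 1, 1]]
    [[2, 1], [0, 0, 1, 1], [0, 0, 0, 0, 2, 1], [0, 0, 0, 0, 0, 0, 1, 1]] [[1, 1, 0, -1]]
    (by decide +kernel) (by decide +kernel) (by decide +kernel) B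
  have h1 : SS B t2 [[2, 1], [0, 0, 1, 1]] = ve B :=
    ss_mor ok_t2 [.fst] t1 _ _ (by decide +kernel) B
  have h2 : SS B t2 [[0, 0, 0, 0, 2, 1], [0, 0, 0, 0, 0, 0, 1, 1]] = ve B :=
    ss_mor ok_t2 [.snd] t1 _ _ (by decide +kernel) B
  have h3 : SS B t2 [[1, 1, 0, -1]] = p2 B :=
    ss_mor ok_t2 [.fst] t1 _ _ (by decide +kernel) B
  unfold vf
  linarith

/-- A three dimensional flat of `t2`. -/
noncomputable def vj (B : Base) : ℝ := SS B t2 [[1], [0, 0, 0, 1], [0, 0, 0, 0, 1, 1]]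
/-- A two dimensional flat of `t2`. -/
noncomputable def vk (B : Base) : ℝ := SS B t2 [[1], [0, 0, 0, 0, 1, 1]]

theorem q9 (B : Base) : vk B ≤ va B + va B := by
  have h := ss_add ok_t2 [[1]] [[0, 0, 0, 0, 1, 1]] [[1], [0, 0, 0, 0, 1, 1]]
    (by decide +kernel) B
  have h1 : SS B t2 [[1]] = va B :=
    ss_mor ok_t2 [.fst, .fst] .line _ _ (by decide +kernel) B
  have h2 : SS B t2 [[0, 0, 0, 0, 1, 1]] = va B :=
    ss_ref ok_t2 [.snd, .fst] .line _ _ (by decide +kernel) B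
  unfold vk
  linarith

theorem q10 (B : Base) : vj B + va B ≤ vl B + vk B := by
  have h := ss_sub ok_t2 [[1], [0, 0, 0, 1]] [[1], [0, 0, 0, 0, 1, 1]]
    [[1], [0, 0, 0, 1], [0, 0, 0, 0, 1, 1]] [[1]]
    (by decide +kernel) (by decide +kernel) (by decide +kernel) B
  have h1 : SS B t2 [[1], [0, 0, 0, 1]] = vl B :=
    ss_mor ok_t2 [.fst, .snd] .line _ _ (by decide +kernel) B
  have h2 : SS B t2 [[1]] = va B :=
    ss_mor ok_t2 [.fst, .fst] .line _ _ (by decide +kernel) B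
  unfold vj vk
  linarith

/-- A two dimensional flat of `t2`. -/
noncomputable def vm (B : Base) : ℝ := SS B t2 [[0, 0, 1, 1], [4, 1, 0, 0, -2]]

theorem q11 (B : Base) : vq B + p1 B ≤ vg B + vm B := by
  have h := ss_sub ok_t2 [[3, 2], [0, 0, 3, 2]] [[0, 0, 0, 0, 0, 0, 1, 1], [3, 1, 0, 1]]
    [[1], [0, 1], [0, 0, 0, 1], [0, 0, 0, 0, 1]] [[3, 1, 0, 1]]
    (by decide +kernel) (by decide +kernel) (by decide +kernel) B
  have h1 : SS B t2 [[3, 2], [0, 0, 3, 2]] = vg B :=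
    ss_mor ok_t2 [.fst] t1 _ _ (by decide +kernel) B
  have h2 : SS B t2 [[0, 0, 0, 0, 0, 0, 1, 1], [3, 1, 0, 1]] = vm B :=
    ss_mor ok_t2 [.swap] t2 _ _ (by decide +kernel) B
  have h3 : SS B t2 [[3, 1, 0, 1]] = p1 B :=
    ss_mor ok_t2 [.fst] t1 _ _ (by decide +kernel) B
  unfold vq
  linarith

theorem q12 (B : Base) : vq B + vm B ≤ vj B + vf B := by
  have h := ss_sub ok_t2 [[1], [0, 0, 0, 1], [0, 0, 0, 0, 1, 1]]
    [[2, 1], [0, 0, 1, 1], [0, 0, 0, 0, 2, 1], [0, 0, 0, 0, 0, 0, 1, 1]]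
    [[1], [0, 1], [0, 0, 0, 1], [0, 0, 0, 0, 1]] [[0, 0, 1, 1], [4, 1, 0, 0, -2]]
    (by decide +kernel) (by decide +kernel) (by decide +kernel) B
  exact h

/-- The certificate: `11 h(line) ≤ 10 h(0) + 5 h(1/3) + 4 h(1/2)`, summed over the two
orientations. -/
theorem final (B : Base) : 11 * vl B ≤ 10 * va B + 5 * vb B + 4 * vc B := by
  linear_combination 6 * q1 B + q2 B + q3 B + 2 * q4 B + 2 * q5 B + q6 B + 2 * q7 B + q8 B +
    q9 B + q10 B + q11 B + q12 B

end Pool.Agent.Helper16.AK.CertT5
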