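import Pool.Graph.R_pool_sql_team_seeded_5cf16337.K3h57.Slopes
import Pool.Agent.Helper16.AK.CertK4
import Pool.Agent.Helper16.AK.CertT5

/-!
# Progressions of four and of seven terms
-/

set_option autoImplicit false

namespace Pool.Agent.Helper16.AK
open Pool.Agent.K3h57

theorem ap4 : APk 4 (9 / 5) := by
  refine apk_of_cert 3 (by norm_num) _ (by norm_num) fun B T h0 h => ?_
  have h1 := h 3 1 1 (by norm_num) (by norm_num) (by norm_num)
  have := CertK4.final B
  simp only [CertK4.vl, CertK4.va, CertK4.vb] at this
  linarith

theorem ap7 : APk 7 (19 / 11) := by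
  refine apk_of_cert 6 (by norm_num) _ (by norm_num) fun B T h0 h => ?_
  have h1 := h 3 1 2 (by norm_num) (by norm_num) (by norm_num)
  have h2 := h 2 1 3 (by norm_num) (by norm_num) (by norm_num)
  have := CertT5.final B
  simp only [CertT5.vl, CertT5.va, CertT5.vb, CertT5.vc] at this
  linarith

end Pool.Agent.Helper16.AK
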